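import Mathlib
import Pool.Agent.H896IID.Low
set_option autoImplicit false

/-!
# The asymptotic constants for independent uniform sampling depend on the shape of the domain

Question Q2 of the problem.  The parameters are `d = s = 2`, `p = 1`, `q = ∞`, Monte Carlo error.
-/

namespace Pool.Agent.Results.MP_961271_an.ShapeDependence

open MeasureTheory Set Filter Pool.Agent.Helper579.Iid Pool.Agent.H896IID
open scoped ENNReal Topology

/-- the zero algorithm on `n` independent uniform points -/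
noncomputable def zeroM {D : Set (Fin 2 → ℝ)} (hp : IsProbabilityMeasure (unif D)) (n : ℕ) :
    Method D n ∞ where
  Ω := Fin n → Fin 2 → ℝ
  mΩ := inferInstance
  μ := Measure.pi fun _ => unif D
  prob := inferInstance
  X := id
  measX := measurable_id
  law := Measure.map_id
  φ := fun _ _ _ => 0
  memLp := fun _ _ => MemLp.zero'

theorem upper {D : Set (Fin 2 → ℝ)} (hD : MeasurableSet D) (hp : IsProbabilityMeasure (unif D))
    {C : ℝ} (h : ∀ f ∈ sobBall D 2 1, ∀ x ∈ D, |f x| ≤ C) (n : ℕ) :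
    minErr D 2 1 ∞ .ran n ≤ ENNReal.ofReal C := by
  unfold minErr
  refine iInf_le_of_le (zeroM hp n) ?_
  show (⨆ f ∈ sobBall D 2 1, upperInt (Measure.pi fun _ : Fin n => unif D)
    fun ω => (zeroM hp n).err f ω) ≤ ENNReal.ofReal C
  refine iSup₂_le fun f hf => ?_
  have h1 : ∀ ω, (zeroM hp n).err f ω ≤ ENNReal.ofReal C := by
    intro ω
    show eLpNorm (fun x => f x - 0) ∞ (volume.restrict D) ≤ ENNReal.ofReal C
    rw [eLpNorm_exponent_top]
    refine eLpNormEssSup_le_of_ae_bound ?_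
    filter_upwards [ae_restrict_mem hD] with x hx
    rw [sub_zero, Real.norm_eq_abs]
    exact h f hf x hx
  refine (upperInt_le_of_ae (Measure.pi fun _ : Fin n => unif D) (fun ω => (zeroM hp n).err f ω)
    (fun _ => ENNReal.ofReal C) measurable_const (Filter.Eventually.of_forall h1)).trans ?_
  rw [lintegral_const, measure_univ, mul_one]

theorem rate_zero : rate 2 2 1 ∞ = 0 := by
  unfold rate
  simp

theorem scaled_eq (D : Set (Fin 2 → ℝ)) : scaled D 2 1 ∞ .ran = minErr D 2 1 ∞ .ran := by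
  funext n
  unfold scaled
  rw [rate_zero, Real.rpow_zero, ENNReal.ofReal_one, mul_one]

theorem scope : InScope 2 2 1 ∞ .ran :=
  ⟨by norm_num, le_rfl, le_top, Or.inr ⟨rfl, rfl⟩, by norm_num⟩

theorem Dk_convex (k : ℝ) : Convex ℝ (Dk k) := by
  rintro x ⟨⟨x1, x2⟩, x3, x4⟩ y ⟨⟨y1, y2⟩, y3, y4⟩ a b ha hb hab
  have hb' : b = 1 - a := by linarith
  simp only [Dk, mem_ofPred_eq, Pi.add_apply, Pi.smul_apply, smul_eq_mul]
  have e : a * x 0 + b * y 0 - k * (a * x 1 + b * y 1)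
      = a * (x 0 - k * x 1) + b * (y 0 - k * y 1) := by ring
  rw [e]
  have key : ∀ s t : ℝ, 0 < s → s < 1 → 0 < t → t < 1 → 0 < a * s + b * t ∧ a * s + b * t < 1 := by
    intro s t hs hs1 ht ht1
    rcases ha.eq_or_lt with h | h
    · have : b = 1 := by linarith
      rw [← h, this]; constructor <;> linarith
    · constructor
      · have := mul_pos h hs
        have := mul_nonneg hb ht.le
        linarith
      · have h1 : a * s < a * 1 := mul_lt_mul_of_pos_left hs1 h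
        have h2 : b * t ≤ b * 1 := mul_le_mul_of_nonneg_left ht1.le hb
        linarith
  exact ⟨key _ _ x1 x2 y1 y2, key _ _ x3 x4 y3 y4⟩

/-- the limit exists for all sheared squares -/
theorem limit : ∃ c C : ℝ, 0 < c ∧ ∀ k : ℝ, 0 ≤ k → ∃ L : ℝ, 0 ≤ L ∧ L ≤ C * (1 + k) ∧
    (1 ≤ k → c * k ≤ L) ∧ Tendsto (scaled (Dk k) 2 1 ∞ .ran) atTop (𝓝 (ENNReal.ofReal L)) := by
  obtain ⟨c, hc, hlow⟩ := low
  obtain ⟨C, hC, hemb⟩ := emb
  refine ⟨c, C, hc, fun k hk => ?_⟩
  have hvol : volume (Dk k) = 1 := Dk_volume k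
  have hprob : IsProbabilityMeasure (unif (Dk k)) := unif_isProb (by rw [hvol]; exact one_ne_zero)
    (by rw [hvol]; exact ENNReal.one_ne_top)
  have hlim : Tendsto (minErr (Dk k) 2 1 ∞ .ran) atTop (𝓝 (⨅ n, minErr (Dk k) 2 1 ∞ .ran n)) :=
    tendsto_atTop_iInf (minErr_antitone hprob .ran)
  set I := ⨅ n, minErr (Dk k) 2 1 ∞ .ran n with hI
  have hup : I ≤ ENNReal.ofReal (C * (1 + k)) :=
    (iInf_le _ 0).trans (upper (Dk_open k).measurableSet hprob (hemb k hk) 0)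
  have hfin : I ≠ ∞ := ne_top_of_le_ne_top ENNReal.ofReal_ne_top hup
  refine ⟨I.toReal, ENNReal.toReal_nonneg, ?_, ?_, ?_⟩
  · exact ENNReal.toReal_le_of_le_ofReal (by positivity) hup
  · intro hk1
    have h1 : ENNReal.ofReal (c * k) ≤ I := le_iInf fun n => hlow k hk1 n
    rwa [← ENNReal.ofReal_le_iff_le_toReal hfin]
  · rw [scaled_eq, ENNReal.ofReal_toReal hfin]
    exact hlim

theorem square_eq : Dk 0 = Set.pi univ fun _ => Ioo (0 : ℝ) 1 := by
  ext z
  simp only [Dk, mem_ofPred_eq, Set.mem_pi, mem_univ, true_implies, mem_Ioo, Fin.forall_fin_two,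
    zero_mul, sub_zero]
  exact and_comm

/-- **Disproof of the suggestion in Q2.**
(1) The parameters `d = 2`, `s = 2`, `p = 1`, `q = ∞` with the Monte Carlo error are in scope.
(2) There are two admissible domains of equal volume, namely the open unit square and an open
parallelogram of area one, for which the limits exist and differ.
(3) More precisely, for the open parallelograms `Dk k` of area one with vertices `(0,0)`, `(1,0)`,
`(k+1,1)`, `(k,1)` the limits `L k` exist for all `k ≥ 0`, and `c k ≤ L k ≤ C (1 + k)`, the first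
inequality for `k ≥ 1`; so the constants are not even bounded on the convex domains of area one. -/
theorem result :
    InScope 2 2 1 ∞ .ran ∧
    (∃ D : Set (Fin 2 → ℝ), ∃ L₁ L₂ : ℝ, 0 ≤ L₁ ∧ L₁ < L₂ ∧
      Admissible (Set.pi univ fun _ : Fin 2 => Ioo (0 : ℝ) 1) ∧ Admissible D ∧ Convex ℝ D ∧
      volume (Set.pi univ fun _ : Fin 2 => Ioo (0 : ℝ) 1) = 1 ∧ volume D = 1 ∧
      Tendsto (scaled (Set.pi univ fun _ : Fin 2 => Ioo (0 : ℝ) 1) 2 1 ∞ .ran) atTop
        (𝓝 (ENNReal.ofReal L₁)) ∧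
      Tendsto (scaled D 2 1 ∞ .ran) atTop (𝓝 (ENNReal.ofReal L₂))) ∧
    (∃ c C : ℝ, 0 < c ∧ ∀ k : ℝ, 0 ≤ k →
      Admissible {z : Fin 2 → ℝ | (0 < z 1 ∧ z 1 < 1) ∧ (0 < z 0 - k * z 1 ∧ z 0 - k * z 1 < 1)} ∧
      Convex ℝ {z : Fin 2 → ℝ | (0 < z 1 ∧ z 1 < 1) ∧ (0 < z 0 - k * z 1 ∧ z 0 - k * z 1 < 1)} ∧
      volume {z : Fin 2 → ℝ | (0 < z 1 ∧ z 1 < 1) ∧ (0 < z 0 - k * z 1 ∧ z 0 - k * z 1 < 1)} = 1 ∧
      ∃ L : ℝ, 0 ≤ L ∧ L ≤ C * (1 + k) ∧ (1 ≤ k → c * k ≤ L) ∧
        Tendsto (scaled {z : Fin 2 → ℝ |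
          (0 < z 1 ∧ z 1 < 1) ∧ (0 < z 0 - k * z 1 ∧ z 0 - k * z 1 < 1)} 2 1 ∞ .ran) atTop
          (𝓝 (ENNReal.ofReal L))) := by
  obtain ⟨c, C, hc, h⟩ := limit
  refine ⟨scope, ?_, c, C, hc, fun k hk => ⟨Dk_admissible hk, Dk_convex k, Dk_volume k, h k hk⟩⟩
  obtain ⟨L₁, hL0, hL1, -, ht1⟩ := h 0 le_rfl
  set k : ℝ := max 1 ((C + 1) / c) with hk
  have hk1 : 1 ≤ k := le_max_left _ _
  obtain ⟨L₂, -, -, hL2, ht2⟩ := h k (by linarith)
  have h2 := hL2 hk1
  have h3 : C + 1 ≤ c * k := by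
    have := le_max_right 1 ((C + 1) / c)
    rw [← hk, div_le_iff₀ hc] at this
    linarith
  rw [← square_eq]
  exact ⟨Dk k, L₁, L₂, hL0, by linarith, Dk_admissible le_rfl, Dk_admissible (by linarith),
    Dk_convex k, Dk_volume 0, Dk_volume k, ht1, ht2⟩

end Pool.Agent.Results.MP_961271_an.ShapeDependence
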