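import Mathlib
import Pool.Agent.H604R3.ShapeB

set_option autoImplicit false

namespace Pool.Agent.Results.MP_961271_an.ShapeRateQuarter

open MeasureTheory Set Filter
open Pool.Agent.Helper579.Iid Pool.Agent.H604R3.Shape
open scoped ENNReal Topology

/-- **Main result.** Monte Carlo error for functions from `W_4^1` of a plane domain in the
sup-norm; the exponent is `1/4`. All the open parallelograms `Sq s` with the vertices `(0,0)`,
`(1,0)`, `(s+1,1)`, `(s,1)`, `s ≥ 0`, are admissible convex domains of area one. The normalised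
errors of the unit square `Sq 0` stay bounded, whereas the lower limit of the normalised errors of
`Sq s` is at least `√s/16`. So no function of the volume alone can be the asymptotic constant:
from some `s` on, the lower limit for `Sq s` is larger than the upper limit for the unit square,
and the two sequences cannot have a common limit. -/
theorem result :
    InScope 2 1 4 ∞ Crit.ran ∧ rate 2 1 4 ∞ = 1 / 4 ∧
    (∀ s : ℝ, 0 ≤ s → Admissible (Sq s) ∧ Convex ℝ (Sq s) ∧ volume (Sq s) = 1) ∧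
    (∃ C : ℝ, ∀ n : ℕ, 4 ≤ n → scaled (Sq 0) 1 4 ∞ Crit.ran n ≤ ENNReal.ofReal C) ∧
    (∀ s : ℝ, 1 ≤ s → ENNReal.ofReal (Real.sqrt s / 16)
      ≤ liminf (scaled (Sq s) 1 4 ∞ Crit.ran) atTop) ∧
    (∀ᶠ s : ℝ in atTop, limsup (scaled (Sq 0) 1 4 ∞ Crit.ran) atTop
      < liminf (scaled (Sq s) 1 4 ∞ Crit.ran) atTop) ∧
    (¬ ∃ c : ℝ≥0∞ → ℝ≥0∞, ∀ D : Set (Fin 2 → ℝ), Admissible D → Convex ℝ D →
      Tendsto (scaled D 1 4 ∞ Crit.ran) atTop (𝓝 (c (volume D)))) := by
  have hlim : ∀ᶠ s : ℝ in atTop, limsup (scaled (Sq 0) 1 4 ∞ Crit.ran) atTop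
      < liminf (scaled (Sq s) 1 4 ∞ Crit.ran) atTop := by
    have hC := Cg_pos
    filter_upwards [eventually_ge_atTop (max 1 ((40 * Cg) ^ 2))] with s hs
    have hs1 : 1 ≤ s := le_trans (le_max_left _ _) hs
    have hs2 : (40 * Cg) ^ 2 ≤ s := le_trans (le_max_right _ _) hs
    have h1 : limsup (scaled (Sq 0) 1 4 ∞ Crit.ran) atTop ≤ ENNReal.ofReal (2 * Cg) := by
      rw [Sq_zero]; exact square_limsup
    refine lt_of_le_of_lt h1 (lt_of_lt_of_le ?_ (sheared_liminf hs1))
    have h2 : 40 * Cg ≤ Real.sqrt s := by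
      apply Real.le_sqrt_of_sq_le
      exact hs2
    exact (ENNReal.ofReal_lt_ofReal_iff (by positivity)).mpr (by linarith)
  refine ⟨inScope_B, rate_eq, fun s hs => ⟨admissible_Sq hs, convex_Sq s, volume_Sq s⟩,
    ⟨2 * Cg, fun n hn => by rw [Sq_zero]; exact square_scaled hn⟩,
    fun s hs => sheared_liminf hs, hlim, ?_⟩
  rintro ⟨c, hc⟩
  obtain ⟨s, hs, hs0⟩ := (hlim.and (eventually_ge_atTop 0)).exists
  have h0 := hc (Sq 0) (admissible_Sq le_rfl) (convex_Sq 0)
  have h1 := hc (Sq s) (admissible_Sq hs0) (convex_Sq s)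
  rw [volume_Sq] at h0 h1
  rw [h0.limsup_eq, h1.liminf_eq] at hs
  exact lt_irrefl _ hs

end Pool.Agent.Results.MP_961271_an.ShapeRateQuarter
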